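import Pool.Agent.Lib.MA71.Main

set_option autoImplicit false

namespace Pool.Agent.Results.MP_684fa7_lc.NoFiniteAutomaton

open Pool.Agent.Lib in
theorem result (k : ℕ) (hk : 2 ≤ k) (A : Type) [Finite A] (d : A → Fin 6 → ℕ)
    (L : Language A) (hL : L.IsRegular) (v : List A → Fin 6 → ℝ)
    (hv : (∀ w i, v w i = (Nat.ofDigits k (w.map (fun a => d a i)) : ℕ)) ∨
      (∀ w i, v w i = (Nat.ofDigits k (w.reverse.map (fun a => d a i)) : ℕ)))
    (M U : Set ℂ)
    (hM : M = {c : ℂ | Bornology.IsBounded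
      (Set.range (fun n : ℕ => (fun z : ℂ => z ^ 2 + c)^[n] 0))})
    (hU : U = ⋃ (w : List A) (_ : w ∈ L),
      Metric.ball (Complex.mk ((v w 0 - v w 1) / (v w 4 + 1)) ((v w 2 - v w 3) / (v w 4 + 1)))
        ((v w 5 + 1) / (v w 4 + 1)))
    (hUM : U ⊆ M) :
    ∃ c ∈ interior M, c ∉ closure U := by
  have hMM : M = MA71.Man := hM
  rw [hMM] at hUM ⊢
  have hin : ∀ w ∈ L, Metric.ball
      (Complex.mk ((v w 0 - v w 1) / (v w 4 + 1)) ((v w 2 - v w 3) / (v w 4 + 1)))
      ((v w 5 + 1) / (v w 4 + 1)) ⊆ MA71.Man := by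
    intro w hw x hx
    apply hUM
    rw [hU]
    exact Set.mem_iUnion₂.mpr ⟨w, hw, hx⟩
  rcases hv with hv | hv
  · have hv' : ∀ w i, v w i = (MA71.val k d w i : ℝ) := hv
    obtain ⟨τ, hτ, h⟩ := MA71.main k hk d L hL _ (fun _ => rfl) (by
      intro w hw
      have := hin w hw
      simpa only [hv'] using this)
    refine MA71.final U τ hτ (fun x hx => ?_)
    rw [hU] at hx
    obtain ⟨w, hw, hx⟩ := Set.mem_iUnion₂.mp hx
    simp only [hv'] at hx
    exact h w hw x hx
  · have hv' : ∀ w i, v w i = (MA71.val k d w.reverse i : ℝ) := hv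
    obtain ⟨τ, hτ, h⟩ := MA71.main k hk d L.reverse hL.reverse _ (fun _ => rfl) (by
      intro w hw
      have := hin w.reverse hw
      simpa only [hv', List.reverse_reverse] using this)
    refine MA71.final U τ hτ (fun x hx => ?_)
    rw [hU] at hx
    obtain ⟨w, hw, hx⟩ := Set.mem_iUnion₂.mp hx
    simp only [hv'] at hx
    exact h w.reverse (Language.reverse_mem_reverse.mpr hw) x hx

end Pool.Agent.Results.MP_684fa7_lc.NoFiniteAutomaton
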